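import Pool.Agent.Zk90.BS.Gp

/-!
# The good places: the quotients `(t - a) / (t - b)` are units

(helper90, part G2 of `Zk12/BS`.)
-/

set_option autoImplicit false
set_option linter.all false

open IsDedekindDomain

namespace Pool.Agent.Zk90.BS

open Pool.Agent.TH954 Pool.Agent.Zk12 Pool.Agent.Y157.PS Pool.Agent.Zk12.BS
open Pool.Agent.W623.SecC hiding IsU
open WeierstrassCurve

section

variable {L : Type} [Field L] [CharZero L] {O : ValuationSubring L}

theorem DD_18 {F : Type} [Field F] (h2 : (2 : F) ≠ 0) (h3 : (3 : F) ≠ 0) :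
    DD (some (18 : F)) = some 10 := by
  unfold DD
  have h : ((18 : F) - 10) * (18 - 6) * (18 + 6) ≠ 0 := by
    rw [show ((18 : F) - 10) * (18 - 6) * (18 + 6) = 2 ^ 8 * 3 ^ 2 by norm_num]
    exact mul_ne_zero (pow_ne_zero _ h2) (pow_ne_zero _ h3)
  simp only [h, if_false]
  congr 1
  rw [show ((18 : F) - 10) ^ 2 - 64 = 0 by norm_num]
  simp

theorem int_mem (n : ℤ) : (n : L) ∈ O := by
  cases n with
  | ofNat n => simpa using nat_mem (O := O) n
  | negSucc n =>
    rw [Int.cast_negSucc]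
    exact neg_mem (nat_mem _)

/-- **part G2** -/
theorem gp2 : S_GP2 := by
  classical
  intro L _ _ _ k hk hC pl t D ht g1 g2 g3 g4 O hfin h6 a haT b hbT
  obtain ⟨q1, g1⟩ := g1
  obtain ⟨q2, g2⟩ := g2
  obtain ⟨q3, g3⟩ := g3
  obtain ⟨q4, g4⟩ := g4
  have htne : ∀ n : ℤ, t - n ≠ 0 := by
    intro n h
    apply ht
    rw [sub_eq_zero.1 h]
    exact intCast_mem k n
  obtain ⟨h2, h3⟩ := res_two h6
  by_contra hcon
  -- `t` is integral, and congruent to one of the four values
  have htO : t ∈ O := by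
    by_contra htO
    apply hcon
    have ht0 : t ≠ 0 := by
      rintro rfl
      exact htO (zero_mem _)
    have hw : t⁻¹ ∈ O := (O.mem_or_inv_mem t).resolve_left htO
    have hwn : t⁻¹ ∈ O.nonunits := by
      rw [nonunits_iff]
      exact ⟨hw, Or.inr (by rwa [inv_inv])⟩
    have hw0 : IsLocalRing.residue O ⟨t⁻¹, hw⟩ = 0 := (res_zero _).2 hwn
    have u1 : ∀ c : ℤ, IsU O (1 - c * t⁻¹) := by
      intro c
      have : IsLocalRing.residue O (1 - ⟨c, int_mem c⟩ * ⟨t⁻¹, hw⟩) ≠ 0 := by
        rw [map_sub, map_one, map_mul, hw0, mul_zero, sub_zero]; exact one_ne_zero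
      exact (res_ne _).1 this
    have : (t - a) / (t - b) = (1 - a * t⁻¹) / (1 - b * t⁻¹) := by
      have h7 := htne a
      have h8 := htne b
      have h9 : 1 - b * t⁻¹ ≠ 0 := (u1 b).1
      have h10 : 1 - b * t⁻¹ = (t - b) * t⁻¹ := by field_simp
      have h11 : 1 - a * t⁻¹ = (t - a) * t⁻¹ := by field_simp
      rw [h10, h11, mul_div_mul_right _ _ (inv_ne_zero ht0)]
    rw [this]
    exact (u1 a).div (u1 b)
  set τ : O := ⟨t, htO⟩ with hτ
  have hττ : IsLocalRing.residue O τ ^ 2 = 1 ∨ IsLocalRing.residue O τ ^ 2 = 9 := by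
    by_contra h
    push Not at h
    obtain ⟨m1, m9⟩ := h
    apply hcon
    have u1 : ∀ c ∈ T4, IsU O (t - c) := by
      intro c hc
      have : IsLocalRing.residue O (τ - ⟨c, int_mem c⟩) ≠ 0 := by
        intro h0
        rw [map_sub, sub_eq_zero] at h0
        have h7 : (⟨c, int_mem c⟩ : O) ^ 2 = 1 ∨ (⟨c, int_mem c⟩ : O) ^ 2 = 9 := by
          simp only [T4, List.mem_cons, List.not_mem_nil, or_false] at hc
          rcases hc with rfl | rfl | rfl | rfl
          · left; apply Subtype.ext; change ((1 : ℤ) : L) ^ 2 = 1; norm_num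
          · left; apply Subtype.ext; change ((-1 : ℤ) : L) ^ 2 = 1; norm_num
          · right; apply Subtype.ext; change ((3 : ℤ) : L) ^ 2 = 9; norm_num
          · right; apply Subtype.ext; change ((-3 : ℤ) : L) ^ 2 = 9; norm_num
        rcases h7 with h7 | h7
        · apply m1
          rw [h0, ← map_pow, h7, map_one]
        · apply m9
          rw [h0, ← map_pow, h7, map_ofNat]
      exact (res_ne _).1 this
    exact (u1 a haT).div (u1 b hbT)
  -- the point
  have hA : (t - 1) * (t + 3) = (D * (q1 * q4)) ^ 2 := by rw [g1, g4]; ring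
  have hB : (t + 1) * (t - 3) = (D * (q2 * q3)) ^ 2 := by rw [g2, g3]; ring
  have hA' : (t + 1) * (t + 3) = (D * (q2 * q4)) ^ 2 := by rw [g2, g4]; ring
  have hB' : (t - 1) * (t - 3) = (D * (q1 * q3)) ^ 2 := by rw [g1, g3]; ring
  have hA'' : (t - 1) * (t + 1) = (D * (q1 * q2)) ^ 2 := by rw [g1, g2]; ring
  have hB'' : (t - 3) * (t + 3) = (D * (q3 * q4)) ^ 2 := by rw [g3, g4]; ring
  set u : L := D * D * (q1 * q2 * q3 * q4) with hu
  have hw : u ^ 2 = (t ^ 2 - 1) * (t ^ 2 - 9) := by
    rw [show (t ^ 2 - 1) * (t ^ 2 - 9) = ((t - 1) * (t + 3)) * ((t + 1) * (t - 3)) by ring, hA, hB,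
      hu]
    ring
  obtain ⟨x, hx⟩ : ∃ x, x = 2 * (u + t ^ 2) := ⟨_, rfl⟩
  have e1 : x - 10 = (D * (q1 * q2) + D * (q3 * q4)) ^ 2 := by
    have : (D * (q1 * q2) + D * (q3 * q4)) ^ 2 = (D * (q1 * q2)) ^ 2 + (D * (q3 * q4)) ^ 2 +
      2 * u := by rw [hu]; ring
    rw [this, ← hA'', ← hB'', hx]; ring
  have e2 : x - 6 = (D * (q1 * q4) + D * (q2 * q3)) ^ 2 := by
    have : (D * (q1 * q4) + D * (q2 * q3)) ^ 2 = (D * (q1 * q4)) ^ 2 + (D * (q2 * q3)) ^ 2 +
      2 * u := by rw [hu]; ring
    rw [this, ← hA, ← hB, hx]; ring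
  have e3 : x + 6 = (D * (q2 * q4) + D * (q1 * q3)) ^ 2 := by
    have : (D * (q2 * q4) + D * (q1 * q3)) ^ 2 = (D * (q2 * q4)) ^ 2 + (D * (q1 * q3)) ^ 2 +
      2 * u := by rw [hu]; ring
    rw [this, ← hA', ← hB', hx]; ring
  have hxk : x ∉ k := by
    intro hxk
    have h10 : (10 : L) ∈ k := by simpa using natCast_mem k 10
    have h36 : (36 : L) ∈ k := by simpa using natCast_mem k 36
    have h4' : (4 : L) ∈ k := by simpa using natCast_mem k 4
    have h7 : 4 * t ^ 2 * (10 - x) = 36 - x ^ 2 := by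
      linear_combination (x + 2 * u - 2 * t ^ 2) * hx + 4 * hw
    by_cases h8 : x = 10
    · rw [h8] at h7
      have h9 : (64 : L) = 0 := by linear_combination h7
      norm_num at h9
    · apply ht
      apply hk
      have h9 : 10 - x ≠ 0 := sub_ne_zero.2 (Ne.symm h8)
      have h11 : t ^ 2 = (36 - x ^ 2) / (4 * (10 - x)) := by
        field_simp
        linear_combination h7
      rw [h11]
      exact div_mem (sub_mem h36 (pow_mem hxk 2)) (mul_mem h4' (sub_mem h10 hxk))
  have huO : u ∈ O := by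
    have h7 : u ^ 2 ∈ O := by rw [hw]; exact ((τ ^ 2 - 1) * (τ ^ 2 - 9) : O).2
    rcases O.mem_or_inv_mem u with h | h
    · exact h
    · by_cases hz0 : u = 0
      · rw [hz0]; exact O.zero_mem
      have : u = u ^ 2 * u⁻¹ := by field_simp
      rw [this]; exact O.mul_mem _ _ h7 h
  set U : O := ⟨u, huO⟩ with hU
  have hU0 : IsLocalRing.residue O U = 0 := by
    have e : U ^ 2 = (τ ^ 2 - 1) * (τ ^ 2 - 9) := Subtype.ext hw
    have e' := congrArg (IsLocalRing.residue O) e
    simp only [map_mul, map_sub, map_pow, map_ofNat, map_one] at e'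
    have e'' : IsLocalRing.residue O U ^ 2 = 0 := by
      rw [e']
      rcases hττ with h | h <;> rw [h]
      · rw [sub_self, zero_mul]
      · rw [show (OfNat.ofNat 9 : IsLocalRing.ResidueField O) - 9 = 0 by norm_num, mul_zero]
    exact pow_eq_zero_iff (two_ne_zero) |>.1 e''
  have hxO : x ∈ O := by rw [hx]; exact (2 * (U + τ ^ 2) : O).2
  obtain ⟨ζ, hζ, hX⟩ : ∃ ζ : IsLocalRing.ResidueField O, (ζ = 2 ∨ ζ = 18) ∧
      IsLocalRing.residue O ⟨x, hxO⟩ = ζ := by
    have e : (⟨x, hxO⟩ : O) = 2 * (U + τ ^ 2) := Subtype.ext hx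
    rw [e]
    simp only [map_mul, map_add, map_pow, map_ofNat, hU0]
    refine ⟨_, ?_, rfl⟩
    rcases hττ with h | h <;> rw [h]
    · left; norm_num
    · right; norm_num
  have hDζ : DD (some ζ) = some 10 := by
    rcases hζ with rfl | rfl
    · exact DD_two h2
    · exact DD_18 h2 h3
  have hζ8 : (ζ - 10) ^ 2 = 64 := by
    rcases hζ with rfl | rfl <;> norm_num
  have hζ0 : ζ - 10 ≠ 0 := by
    intro h
    rw [h] at hζ8
    have : (2 : IsLocalRing.ResidueField O) ^ 6 = 0 := by linear_combination -hζ8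
    exact pow_ne_zero _ h2 this
  have hred : red O x = some ζ := by rw [red_of_mem hxO, hX]
  have hns : (EE L).Nonsingular x ((D * (q1 * q2) + D * (q3 * q4)) *
      (D * (q1 * q4) + D * (q2 * q3)) * (D * (q2 * q4) + D * (q1 * q3))) :=
    ns_of (by rw [e1, e2, e3]; ring)
  obtain ⟨P, hP⟩ := halve' hns e1 e2 e3
  have hPP : P + P ∉ algPt k := by
    rw [← hP]
    intro h1
    exact hxk (some_mem_algPt.1 h1).1
  have hPn : P ∉ algPt k := fun h => hPP (add_mem h h)
  obtain ⟨T, hT, hn⟩ := iter hk hC pl hPn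
  simp only [List.mem_cons, List.not_mem_nil, or_false] at hT
  have hTk : T ∈ algPt k := by
    rcases hT with rfl | rfl
    · exact zero_mem _
    · exact T10_mem
  have hR : P + P + T ∉ algPt k := by
    intro h1
    apply hPP
    have := sub_mem h1 hTk
    rwa [add_sub_cancel_right] at this
  have hrR : rr O (P + P + T) = some ζ := by
    rcases hT with rfl | rfl
    · rw [add_zero, ← hP]
      exact hred
    · have hx10 : x ≠ 10 := by
        rintro rfl
        exact hxk (by simpa using natCast_mem k 10)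
      obtain ⟨x', y', h', hs, h7⟩ := add_T10 hns hx10
      rw [← hP]
      have hs' : Affine.Point.some x _ hns + T10 L = Affine.Point.some x' y' h' := hs
      rw [hs']
      change red O x' = some ζ
      have hu8 : IsU O (x - 10) := by
        have : IsLocalRing.residue O (⟨x, hxO⟩ - 10) ≠ 0 := by
          rw [map_sub, hX, map_ofNat]
          exact hζ0
        exact (res_ne _).1 this
      have hx'O : x' ∈ O := by
        have h8 : x' = 10 + 64 * (x - 10)⁻¹ := by
          have h9 := hu8.1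
          field_simp
          linear_combination h7
        rw [h8]
        exact add_mem (ofNat_mem' 10) (mul_mem (ofNat_mem' 64) hu8.2.2)
      rw [red_of_mem hx'O]
      congr 1
      have e : (⟨x', hx'O⟩ - 10) * (⟨x, hxO⟩ - 10) = (64 : O) := Subtype.ext h7
      have e' := congrArg (IsLocalRing.residue O) e
      rw [map_mul, map_sub, map_sub, hX, map_ofNat, map_ofNat] at e'
      have h8 : (ζ - 10) * (IsLocalRing.residue O ⟨x', hx'O⟩ - ζ) = 0 := by
        linear_combination e' - hζ8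
      exact sub_eq_zero.1 ((mul_eq_zero.1 h8).resolve_left hζ0)
  -- the contradiction
  haveI : Fintype (IsLocalRing.ResidueField O) := Fintype.ofFinite _
  set N := Fintype.card (Option (IsLocalRing.ResidueField O)) with hN
  obtain ⟨Q, hQ, hQe⟩ := hn N
  have h7 : DD^[N + 2] (rr O Q) = some ζ := by
    rw [← rr_pow hk h6 (N + 2) (by rw [← hQe]; exact hR), ← hQe, hrR]
  have h8 : DD^[2 + (N + 2)] (rr O Q) = none := by
    rw [Function.iterate_add_apply, h7]
    change DD (DD (some ζ)) = none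
    rw [hDζ, DD_ten]
  have h9 := reach (f := DD) (c := none) rfl h8
  have h10 : DD^[N + 2] (rr O Q) = none := by
    rw [add_comm, Function.iterate_add_apply, h9, DD_iter_none]
  rw [h10] at h7
  cases h7

end

end Pool.Agent.Zk90.BS
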