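import Pool.Agent.Zk12.BS.Stm

/-!
# The good places: `(t - 1) / (t + 1)` is a unit

(helper90, part G of `Zk12/BS`.)
-/

set_option autoImplicit false
set_option linter.all false

open IsDedekindDomain

namespace Pool.Agent.Zk90.BS

open Pool.Agent.TH954 Pool.Agent.Zk12 Pool.Agent.Y157.PS Pool.Agent.Zk12.BS
open Pool.Agent.W623.SecC hiding IsU
open WeierstrassCurve

/-- the first coordinate of the double of a point, in terms of the first coordinate -/
noncomputable def DD {F : Type} [Field F] : Option F → Option F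
  | none => none
  | some z => open Classical in if (z - 10) * (z - 6) * (z + 6) = 0 then none else
      some (10 + ((z - 10) ^ 2 - 64) ^ 2 / (4 * ((z - 10) * (z - 6) * (z + 6))))

theorem DD_iter_none {F : Type} [Field F] (n : ℕ) : DD^[n] (none : Option F) = none := by
  induction n with
  | zero => rfl
  | succ n ih => rw [Function.iterate_succ_apply]; exact ih

/-- a fixed point which is reached is reached after `card` steps -/
theorem reach {α : Type} [Fintype α] {f : α → α} {c : α} (hc : f c = c) {a : α} {m : ℕ}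
    (h : f^[m] a = c) : f^[Fintype.card α] a = c := by
  classical
  have hfix : ∀ n, f^[n] c = c := fun n => Function.iterate_fixed hc n
  have hex : ∃ m, f^[m] a = c := ⟨m, h⟩
  obtain ⟨m₀, hm₀, hmin⟩ : ∃ m₀, f^[m₀] a = c ∧ ∀ m < m₀, f^[m] a ≠ c :=
    ⟨Nat.find hex, Nat.find_spec hex, fun m hm => Nat.find_min hex hm⟩
  have hle : m₀ ≤ Fintype.card α := by
    by_contra hlt
    push Not at hlt
    obtain ⟨i, j, hij, he⟩ := Fintype.exists_ne_map_eq_of_card_lt
      (fun i : Fin (Fintype.card α + 1) => f^[(i : ℕ)] a) (by simp)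
    have key : ∀ i j : ℕ, i < j → j ≤ Fintype.card α → f^[i] a = f^[j] a → False := by
      intro i j hij hj he
      apply hmin (m₀ - (j - i)) (by omega)
      have h1 : m₀ - (j - i) = (m₀ - j) + i := by omega
      have h2 : m₀ = (m₀ - j) + j := by omega
      rw [h1, Function.iterate_add_apply, he, ← Function.iterate_add_apply, ← h2]
      exact hm₀
    rcases lt_trichotomy (i : ℕ) (j : ℕ) with h1 | h1 | h1
    · exact key i j h1 (by omega) he
    · exact hij (Fin.ext h1)
    · exact key j i h1 (by omega) he.symm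
  obtain ⟨d, hd⟩ := Nat.exists_eq_add_of_le hle
  rw [hd, add_comm, Function.iterate_add_apply, hm₀, hfix]

section

variable {L : Type} [Field L] [CharZero L] {O : ValuationSubring L}

/-- the reduction of an element -/
noncomputable def red (O : ValuationSubring L) (x : L) : Option (IsLocalRing.ResidueField O) :=
  open Classical in if h : x ∈ O then some (IsLocalRing.residue O ⟨x, h⟩) else none

theorem red_of_mem {x : L} (h : x ∈ O) : red O x = some (IsLocalRing.residue O ⟨x, h⟩) := by
  unfold red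
  rw [dif_pos h]

theorem red_of_notMem {x : L} (h : x ∉ O) : red O x = none := by
  unfold red
  rw [dif_neg h]

theorem res_zero (z : O) : IsLocalRing.residue O z = 0 ↔ (z : L) ∈ O.nonunits := by
  rw [IsLocalRing.residue_eq_zero_iff, ValuationSubring.coe_mem_nonunits_iff]

theorem res_ne (z : O) : IsLocalRing.residue O z ≠ 0 ↔ IsU O (z : L) := by
  rw [Ne, res_zero]
  exact ⟨fun h => Pool.Agent.Y157.PS.isU_of_not_nonunit z.2 h, fun h => h.not_nonunit⟩

theorem nat_mem (n : ℕ) : (n : L) ∈ O := by
  induction n with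
  | zero => simpa using zero_mem O
  | succ n ih => push_cast; exact add_mem ih (one_mem O)

theorem ofNat_mem' (n : ℕ) [n.AtLeastTwo] : (OfNat.ofNat n : L) ∈ O := by
  have := nat_mem (O := O) (OfNat.ofNat n : ℕ)
  rwa [Nat.cast_ofNat] at this

theorem coe_ofNat (n : ℕ) [n.AtLeastTwo] : ((OfNat.ofNat n : O) : L) = OfNat.ofNat n := rfl

theorem res_two (h6 : IsU O (6 : L)) : (2 : IsLocalRing.ResidueField O) ≠ 0 ∧
    (3 : IsLocalRing.ResidueField O) ≠ 0 := by
  have h : (IsLocalRing.residue O (6 : O)) ≠ 0 := (res_ne _).2 h6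
  rw [map_ofNat] at h
  constructor
  · intro h2
    apply h
    rw [show (OfNat.ofNat 6 : IsLocalRing.ResidueField O) = 2 * 3 by norm_num, h2, zero_mul]
  · intro h2
    apply h
    rw [show (OfNat.ofNat 6 : IsLocalRing.ResidueField O) = 2 * 3 by norm_num, h2, mul_zero]

/-- the reduction of the double -/
theorem red_dbl (h6 : IsU O (6 : L)) {x x' : L}
    (h : (x' - 10) * (4 * ((x - 10) * (x - 6) * (x + 6))) = ((x - 10) ^ 2 - 64) ^ 2) :
    red O x' = DD (red O x) := by
  obtain ⟨h2, h3⟩ := res_two h6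
  set F := IsLocalRing.ResidueField O
  have h4 : (4 : F) ≠ 0 := by
    rw [show (4 : F) = 2 * 2 by norm_num]; exact mul_ne_zero h2 h2
  by_cases hx : x ∈ O
  · rw [red_of_mem hx]
    set X : O := ⟨x, hx⟩ with hX
    unfold DD
    by_cases hG : (IsLocalRing.residue O X - 10) * (IsLocalRing.residue O X - 6) *
        (IsLocalRing.residue O X + 6) = 0
    · simp only [hG, if_true]
      apply red_of_notMem
      intro hx'
      set X' : O := ⟨x', hx'⟩ with hX'
      have e : (X' - 10) * (4 * ((X - 10) * (X - 6) * (X + 6))) = ((X - 10) ^ 2 - 64) ^ 2 := by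
        apply Subtype.ext
        exact h
      have e' := congrArg (IsLocalRing.residue O) e
      simp only [map_mul, map_sub, map_add, map_pow, map_ofNat] at e'
      rw [hG, mul_zero, mul_zero] at e'
      have e3 : (IsLocalRing.residue O X - 10) ^ 2 - 64 = 0 := by
        rw [← sq_eq_zero_iff]; exact e'.symm
      rcases mul_eq_zero.1 hG with h7 | h7
      · rcases mul_eq_zero.1 h7 with h8 | h8
        · rw [h8] at e3
          have : (2 : F) ^ 6 = 0 := by linear_combination -e3
          exact pow_ne_zero _ h2 this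
        · rw [sub_eq_zero.1 h8] at e3
          have : (2 : F) ^ 4 * 3 = 0 := by linear_combination -e3
          exact mul_ne_zero (pow_ne_zero _ h2) h3 this
      · rw [eq_neg_of_add_eq_zero_left h7] at e3
        have : (2 : F) ^ 6 * 3 = 0 := by linear_combination e3
        exact mul_ne_zero (pow_ne_zero _ h2) h3 this
    · simp only [hG, if_false]
      have hu : IsU O (4 * ((x - 10) * (x - 6) * (x + 6))) := by
        have h7 : IsLocalRing.residue O (4 * ((X - 10) * (X - 6) * (X + 6))) ≠ 0 := by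
          simp only [map_mul, map_sub, map_add, map_ofNat]
          exact mul_ne_zero h4 hG
        exact (res_ne _).1 h7
      have hN : ((x - 10) ^ 2 - 64) ^ 2 ∈ O := ((((X - 10) ^ 2 - 64) ^ 2 : O)).2
      have hx'' : x' - 10 ∈ O := by
        have : x' - 10 = ((x - 10) ^ 2 - 64) ^ 2 * (4 * ((x - 10) * (x - 6) * (x + 6)))⁻¹ := by
          rw [← h, mul_assoc, mul_inv_cancel₀ hu.1, mul_one]
        rw [this]
        exact mul_mem hN hu.2.2
      have hx' : x' ∈ O := by
        have := add_mem hx'' (ofNat_mem' (O := O) 10)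
        rwa [sub_add_cancel] at this
      rw [red_of_mem hx']
      set X' : O := ⟨x', hx'⟩ with hX'
      have e : (X' - 10) * (4 * ((X - 10) * (X - 6) * (X + 6))) = ((X - 10) ^ 2 - 64) ^ 2 := by
        apply Subtype.ext
        exact h
      have e' := congrArg (IsLocalRing.residue O) e
      simp only [map_mul, map_sub, map_add, map_pow, map_ofNat] at e'
      congr 1
      have h8 : (4 : F) * ((IsLocalRing.residue O X - 10) * (IsLocalRing.residue O X - 6) *
        (IsLocalRing.residue O X + 6)) ≠ 0 := mul_ne_zero h4 hG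
      have h9 : IsLocalRing.residue O X' - 10 =
          ((IsLocalRing.residue O X - 10) ^ 2 - 64) ^ 2 / (4 * ((IsLocalRing.residue O X - 10) *
            (IsLocalRing.residue O X - 6) * (IsLocalRing.residue O X + 6))) := by
        rw [eq_div_iff h8]; exact e'
      rw [← h9]; ring
  · rw [red_of_notMem hx]
    unfold DD
    apply red_of_notMem
    intro hx'
    have hz : x - 10 ∉ O := by
      intro hz
      apply hx
      have := add_mem hz (ofNat_mem' (O := O) 10)
      rwa [sub_add_cancel] at this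
    have hz0 : x - 10 ≠ 0 := by
      intro h0
      rw [h0] at hz
      exact hz (zero_mem _)
    have hw : (x - 10)⁻¹ ∈ O := (O.mem_or_inv_mem (x - 10)).resolve_left hz
    have hwn : (x - 10)⁻¹ ∈ O.nonunits := by
      rw [nonunits_iff]
      exact ⟨hw, Or.inr (by rwa [inv_inv])⟩
    have h7 : (x' - 10) * (4 * (x - 10)⁻¹ * (1 + 4 * (x - 10)⁻¹) * (1 + 16 * (x - 10)⁻¹)) =
        (1 - 64 * (x - 10)⁻¹ ^ 2) ^ 2 := by
      have h8 : (x' - 10) * (4 * (x - 10) * ((x - 10) + 4) * ((x - 10) + 16)) =
          ((x - 10) ^ 2 - 64) ^ 2 := by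
        rw [← h]; ring
      generalize x - 10 = z at h8 hz0
      field_simp
      linear_combination h8
    set X' : O := ⟨x', hx'⟩ with hX'
    set w : O := ⟨(x - 10)⁻¹, hw⟩ with hwdef
    have e : (X' - 10) * (4 * w * (1 + 4 * w) * (1 + 16 * w)) = (1 - 64 * w ^ 2) ^ 2 := by
      apply Subtype.ext
      exact h7
    have e' := congrArg (IsLocalRing.residue O) e
    have hw0 : IsLocalRing.residue O w = 0 := (res_zero _).2 hwn
    simp only [map_mul, map_sub, map_add, map_pow, map_ofNat, map_one, hw0] at e'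
    simp at e'

open Classical in
/-- the reduction of the first coordinate of a point -/
noncomputable def rr (O : ValuationSubring L) : (EE L).Point → Option (IsLocalRing.ResidueField O)
  | .zero => none
  | .some x _ _ => red O x

variable {k : Subfield L}

open Classical in
theorem rr_dbl (hk : ∀ y : L, y ^ 2 ∈ k → y ∈ k) (h6 : IsU O (6 : L)) {Q : (EE L).Point}
    (hQ : Q ∉ algPt k) : rr O (Q + Q) = DD (rr O Q) := by
  cases Q with
  | zero => exact absurd (zero_mem _) hQ
  | some x y h =>
    have hx := x_not_mem hk hQ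
    obtain ⟨x₁, y₁, h₁, e, e1, -, -⟩ := dbl_pt h (y_ne_zero h hx)
    rw [e]
    change red O x₁ = DD (red O x)
    apply red_dbl h6
    rw [← e1, eqn_of h]
    ring

open Classical in
theorem rr_pow (hk : ∀ y : L, y ^ 2 ∈ k → y ∈ k) (h6 : IsU O (6 : L)) {Q : (EE L).Point} (n : ℕ)
    (hQ : 2 ^ n • Q ∉ algPt k) : rr O (2 ^ n • Q) = DD^[n] (rr O Q) := by
  induction n with
  | zero => rw [pow_zero, one_nsmul]; rfl
  | succ n ih =>
    have h1 : 2 ^ (n + 1) • Q = 2 ^ n • Q + 2 ^ n • Q := by
      rw [← add_nsmul]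
      congr 1
      ring
    rw [h1] at hQ ⊢
    have h2 : 2 ^ n • Q ∉ algPt k := fun h => hQ (add_mem h h)
    rw [rr_dbl hk h6 h2, ih h2, Function.iterate_succ_apply']

theorem DD_two {F : Type} [Field F] (h2 : (2 : F) ≠ 0) : DD (some (2 : F)) = some 10 := by
  unfold DD
  have h : ((2 : F) - 10) * (2 - 6) * (2 + 6) ≠ 0 := by
    rw [show ((2 : F) - 10) * (2 - 6) * (2 + 6) = 2 ^ 8 by norm_num]
    exact pow_ne_zero _ h2
  simp only [h, if_false]
  congr 1
  rw [show ((2 : F) - 10) ^ 2 - 64 = 0 by norm_num]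
  simp

theorem DD_ten {F : Type} [Field F] : DD (some (10 : F)) = none := by
  unfold DD
  have h : ((10 : F) - 10) * (10 - 6) * (10 + 6) = 0 := by
    rw [sub_self, zero_mul, zero_mul]
  simp only [h, if_true]

/-- **part G** -/
theorem gp : S_GP := by
  classical
  intro L _ _ _ k hk hC pl t D ht g1 g2 g3 g4 O hfin h6
  obtain ⟨q1, g1⟩ := g1
  obtain ⟨q2, g2⟩ := g2
  obtain ⟨q3, g3⟩ := g3
  obtain ⟨q4, g4⟩ := g4
  have htne : ∀ n : ℤ, t - n ≠ 0 := by
    intro n h
    apply ht
    rw [sub_eq_zero.1 h]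
    exact intCast_mem k n
  have ht1 : t - 1 ≠ 0 := by simpa using htne 1
  have ht1' : t + 1 ≠ 0 := by simpa using htne (-1)
  obtain ⟨h2, h3⟩ := res_two h6
  by_contra hcon
  -- `t` is integral, and congruent to `1` or `-1`
  have htO : t ∈ O := by
    by_contra htO
    apply hcon
    have ht0 : t ≠ 0 := by
      rintro rfl
      exact htO (zero_mem _)
    have hw : t⁻¹ ∈ O := (O.mem_or_inv_mem t).resolve_left htO
    have hwn : t⁻¹ ∈ O.nonunits := by
      rw [nonunits_iff]
      exact ⟨hw, Or.inr (by rwa [inv_inv])⟩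
    have hw0 : IsLocalRing.residue O ⟨t⁻¹, hw⟩ = 0 := (res_zero _).2 hwn
    have u1 : IsU O (1 - t⁻¹) := by
      have : IsLocalRing.residue O (1 - ⟨t⁻¹, hw⟩) ≠ 0 := by
        rw [map_sub, map_one, hw0, sub_zero]; exact one_ne_zero
      exact (res_ne _).1 this
    have u2 : IsU O (1 + t⁻¹) := by
      have : IsLocalRing.residue O (1 + ⟨t⁻¹, hw⟩) ≠ 0 := by
        rw [map_add, map_one, hw0, add_zero]; exact one_ne_zero
      exact (res_ne _).1 this
    have : (t - 1) / (t + 1) = (1 - t⁻¹) / (1 + t⁻¹) := by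
      field_simp
    rw [this]
    exact u1.div u2
  set τ : O := ⟨t, htO⟩ with hτ
  have hττ : IsLocalRing.residue O τ ^ 2 = 1 := by
    by_contra h
    apply hcon
    have u1 : IsU O (t - 1) := by
      have : IsLocalRing.residue O (τ - 1) ≠ 0 := by
        intro h0
        apply h
        rw [map_sub, map_one, sub_eq_zero] at h0
        rw [h0, one_pow]
      exact (res_ne _).1 this
    have u2 : IsU O (t + 1) := by
      have : IsLocalRing.residue O (τ + 1) ≠ 0 := by
        intro h0
        apply h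
        rw [map_add, map_one] at h0
        rw [eq_neg_of_add_eq_zero_left h0]; ring
      exact (res_ne _).1 this
    exact u1.div u2
  -- the point
  have hA : (t - 1) * (t + 3) = (D * (q1 * q4)) ^ 2 := by rw [g1, g4]; ring
  have hB : (t + 1) * (t - 3) = (D * (q2 * q3)) ^ 2 := by rw [g2, g3]; ring
  have hA' : (t + 1) * (t + 3) = (D * (q2 * q4)) ^ 2 := by rw [g2, g4]; ring
  have hB' : (t - 1) * (t - 3) = (D * (q1 * q3)) ^ 2 := by rw [g1, g3]; ring
  have hA'' : (t - 1) * (t + 1) = (D * (q1 * q2)) ^ 2 := by rw [g1, g2]; ring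
  have hB'' : (t - 3) * (t + 3) = (D * (q3 * q4)) ^ 2 := by rw [g3, g4]; ring
  set u : L := D * D * (q1 * q2 * q3 * q4) with hu
  have hw : u ^ 2 = (t ^ 2 - 1) * (t ^ 2 - 9) := by
    rw [show (t ^ 2 - 1) * (t ^ 2 - 9) = ((t - 1) * (t + 3)) * ((t + 1) * (t - 3)) by ring, hA, hB,
      hu]
    ring
  obtain ⟨x, hx⟩ : ∃ x, x = 2 * (u + t ^ 2) := ⟨_, rfl⟩
  have e1 : x - 10 = (D * (q1 * q2) + D * (q3 * q4)) ^ 2 := by
    have : (D * (q1 * q2) + D * (q3 * q4)) ^ 2 = (D * (q1 * q2)) ^ 2 + (D * (q3 * q4)) ^ 2 +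
      2 * u := by rw [hu]; ring
    rw [this, ← hA'', ← hB'', hx]; ring
  have e2 : x - 6 = (D * (q1 * q4) + D * (q2 * q3)) ^ 2 := by
    have : (D * (q1 * q4) + D * (q2 * q3)) ^ 2 = (D * (q1 * q4)) ^ 2 + (D * (q2 * q3)) ^ 2 +
      2 * u := by rw [hu]; ring
    rw [this, ← hA, ← hB, hx]; ring
  have e3 : x + 6 = (D * (q2 * q4) + D * (q1 * q3)) ^ 2 := by
    have : (D * (q2 * q4) + D * (q1 * q3)) ^ 2 = (D * (q2 * q4)) ^ 2 + (D * (q1 * q3)) ^ 2 +
      2 * u := by rw [hu]; ring
    rw [this, ← hA', ← hB', hx]; ring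
  have hxk : x ∉ k := by
    intro hxk
    have h10 : (10 : L) ∈ k := by simpa using natCast_mem k 10
    have h36 : (36 : L) ∈ k := by simpa using natCast_mem k 36
    have h4' : (4 : L) ∈ k := by simpa using natCast_mem k 4
    have h7 : 4 * t ^ 2 * (10 - x) = 36 - x ^ 2 := by
      linear_combination (x + 2 * u - 2 * t ^ 2) * hx + 4 * hw
    by_cases h8 : x = 10
    · rw [h8] at h7
      have h9 : (64 : L) = 0 := by linear_combination h7
      norm_num at h9
    · apply ht
      apply hk
      have h9 : 10 - x ≠ 0 := sub_ne_zero.2 (Ne.symm h8)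
      have h11 : t ^ 2 = (36 - x ^ 2) / (4 * (10 - x)) := by
        field_simp
        linear_combination h7
      rw [h11]
      exact div_mem (sub_mem h36 (pow_mem hxk 2)) (mul_mem h4' (sub_mem h10 hxk))
  have huO : u ∈ O := by
    have h7 : u ^ 2 ∈ O := by rw [hw]; exact ((τ ^ 2 - 1) * (τ ^ 2 - 9) : O).2
    rcases O.mem_or_inv_mem u with h | h
    · exact h
    · by_cases hz0 : u = 0
      · rw [hz0]; exact O.zero_mem
      have : u = u ^ 2 * u⁻¹ := by field_simp
      rw [this]; exact O.mul_mem _ _ h7 h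
  set U : O := ⟨u, huO⟩ with hU
  have hU0 : IsLocalRing.residue O U = 0 := by
    have e : U ^ 2 = (τ ^ 2 - 1) * (τ ^ 2 - 9) := Subtype.ext hw
    have e' := congrArg (IsLocalRing.residue O) e
    simp only [map_mul, map_sub, map_pow, map_ofNat, map_one, hττ, sub_self, zero_mul] at e'
    exact pow_eq_zero_iff (two_ne_zero) |>.1 e'
  have hxO : x ∈ O := by rw [hx]; exact (2 * (U + τ ^ 2) : O).2
  have hX : IsLocalRing.residue O ⟨x, hxO⟩ = 2 := by
    have e : (⟨x, hxO⟩ : O) = 2 * (U + τ ^ 2) := Subtype.ext hx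
    rw [e]
    simp only [map_mul, map_add, map_pow, map_ofNat, hττ, hU0]
    ring
  have hred : red O x = some 2 := by rw [red_of_mem hxO, hX]
  have hns : (EE L).Nonsingular x ((D * (q1 * q2) + D * (q3 * q4)) *
      (D * (q1 * q4) + D * (q2 * q3)) * (D * (q2 * q4) + D * (q1 * q3))) :=
    ns_of (by rw [e1, e2, e3]; ring)
  obtain ⟨P, hP⟩ := halve' hns e1 e2 e3
  have hPP : P + P ∉ algPt k := by
    rw [← hP]
    intro h1
    exact hxk (some_mem_algPt.1 h1).1
  have hPn : P ∉ algPt k := fun h => hPP (add_mem h h)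
  obtain ⟨T, hT, hn⟩ := iter hk hC pl hPn
  simp only [List.mem_cons, List.not_mem_nil, or_false] at hT
  have hTk : T ∈ algPt k := by
    rcases hT with rfl | rfl
    · exact zero_mem _
    · exact T10_mem
  have hR : P + P + T ∉ algPt k := by
    intro h1
    apply hPP
    have := sub_mem h1 hTk
    rwa [add_sub_cancel_right] at this
  have hrR : rr O (P + P + T) = some 2 := by
    rcases hT with rfl | rfl
    · rw [add_zero, ← hP]
      exact hred
    · have hx10 : x ≠ 10 := by
        rintro rfl
        exact hxk (by simpa using natCast_mem k 10)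
      obtain ⟨x', y', h', hs, h7⟩ := add_T10 hns hx10
      rw [← hP]
      have hs' : Affine.Point.some x _ hns + T10 L = Affine.Point.some x' y' h' := hs
      rw [hs']
      change red O x' = some 2
      have hu8 : IsU O (x - 10) := by
        have : IsLocalRing.residue O (⟨x, hxO⟩ - 10) ≠ 0 := by
          rw [map_sub, hX, map_ofNat, show (2 : IsLocalRing.ResidueField O) - OfNat.ofNat 10 =
            -(2 ^ 3) by norm_num]
          exact neg_ne_zero.2 (pow_ne_zero _ h2)
        exact (res_ne _).1 this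
      have hx'O : x' ∈ O := by
        have h8 : x' = 10 + 64 * (x - 10)⁻¹ := by
          have h9 := hu8.1
          field_simp
          linear_combination h7
        rw [h8]
        exact add_mem (ofNat_mem' 10) (mul_mem (ofNat_mem' 64) hu8.2.2)
      rw [red_of_mem hx'O]
      congr 1
      have e : (⟨x', hx'O⟩ - 10) * (⟨x, hxO⟩ - 10) = (64 : O) := Subtype.ext h7
      have e' := congrArg (IsLocalRing.residue O) e
      rw [map_mul, map_sub, map_sub, hX, map_ofNat, map_ofNat] at e'
      have h8 : (2 : IsLocalRing.ResidueField O) ^ 3 *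
          (IsLocalRing.residue O ⟨x', hx'O⟩ - 2) = 0 := by
        linear_combination -e'
      exact sub_eq_zero.1 ((mul_eq_zero.1 h8).resolve_left (pow_ne_zero _ h2))
  -- the contradiction
  haveI : Fintype (IsLocalRing.ResidueField O) := Fintype.ofFinite _
  set N := Fintype.card (Option (IsLocalRing.ResidueField O)) with hN
  obtain ⟨Q, hQ, hQe⟩ := hn N
  have h7 : DD^[N + 2] (rr O Q) = some 2 := by
    rw [← rr_pow hk h6 (N + 2) (by rw [← hQe]; exact hR), ← hQe, hrR]
  have h8 : DD^[2 + (N + 2)] (rr O Q) = none := by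
    rw [Function.iterate_add_apply, h7]
    change DD (DD (some 2)) = none
    rw [DD_two h2, DD_ten]
  have h9 := reach (f := DD) (c := none) rfl h8
  have h10 : DD^[N + 2] (rr O Q) = none := by
    rw [add_comm, Function.iterate_add_apply, h9, DD_iter_none]
  rw [h10] at h7
  cases h7

end

end Pool.Agent.Zk90.BS
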